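import Pool.Agent.R384.X.Mq7

/-!
# Units modulo eight, and square roots at the places above two
-/

set_option autoImplicit false
set_option linter.unusedVariables false
set_option linter.unusedSectionVars false

open scoped Classical

namespace Pool.Agent.T2h62.BK

open Pool.Agent.R384
open Pool.Agent.Y715.Red Pool.Agent.Y715.Nr Pool.Agent.W237.RK
open Pool.Agent.Y715.Gi (QB KK GK i₀_mem gk_fix)
open Pool.Agent.Y715.Df (Cmp exists_cmp)

/-! ### Units modulo eight -/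

/-- reduction modulo eight -/
noncomputable def m8 : ℤ_[2] →+* ZMod (2 ^ 3) := PadicInt.toZModPow 3

lemma m8_dvd (z : ℤ_[2]) : (8 : ℤ_[2]) ∣ z ↔ m8 z = 0 := by
  have h1 : m8 z = 0 ↔ z ∈ RingHom.ker (PadicInt.toZModPow (p := 2) 3) := Iff.rfl
  rw [h1, PadicInt.ker_toZModPow, Ideal.mem_span_singleton]
  have e : ((2 : ℕ) : ℤ_[2]) ^ 3 = 8 := by norm_num
  rw [e]

lemma m8_sub (z w : ℤ_[2]) : (8 : ℤ_[2]) ∣ z - w ↔ m8 z = m8 w := by
  rw [m8_dvd, map_sub, sub_eq_zero]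

lemma m8_unit (z : ℤ_[2]ˣ) : m8 (z : ℤ_[2]) = 1 ∨ m8 (z : ℤ_[2]) = 3 ∨ m8 (z : ℤ_[2]) = 5 ∨
    m8 (z : ℤ_[2]) = 7 := by
  have hu : IsUnit (m8 (z : ℤ_[2])) := z.isUnit.map _
  have h : ∀ a : ZMod (2 ^ 3), IsUnit a → a = 1 ∨ a = 3 ∨ a = 5 ∨ a = 7 := by decide
  exact h _ hu

lemma four_one (z : ℤ_[2]) : (4 : ℤ_[2]) ∣ z - 1 ↔ m8 z = 1 ∨ m8 z = 5 := by
  constructor
  · rintro ⟨t, ht⟩
    have e : z = 1 + 4 * t := by linear_combination ht
    have h : ∀ a : ZMod (2 ^ 3), 1 + 4 * a = 1 ∨ 1 + 4 * a = 5 := by decide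
    rw [e, map_add, map_one, map_mul, map_ofNat]
    exact h _
  · rintro (h | h)
    · obtain ⟨t, ht⟩ := (m8_sub z 1).2 (by rw [h, map_one])
      exact ⟨2 * t, by rw [ht]; ring⟩
    · obtain ⟨t, ht⟩ := (m8_sub z 5).2 (by rw [h, map_ofNat])
      exact ⟨2 * t + 1, by linear_combination ht⟩

lemma four_neg (z : ℤ_[2]) : (4 : ℤ_[2]) ∣ z + 1 ↔ m8 z = 3 ∨ m8 z = 7 := by
  have h1 := four_one (-z)
  have e : -z - 1 = -(z + 1) := by ring
  rw [e, dvd_neg] at h1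
  rw [h1, map_neg]
  have h : ∀ a : ZMod (2 ^ 3), (-a = 1 ∨ -a = 5) ↔ (a = 3 ∨ a = 7) := by decide
  exact h _

lemma pm_iff (z : ℤ_[2]) : ((8 : ℤ_[2]) ∣ z - 1 ∨ (8 : ℤ_[2]) ∣ z + 1) ↔ m8 z = 1 ∨ m8 z = 7 := by
  rw [m8_dvd, m8_dvd, map_sub, map_add, map_one]
  have h : ∀ a : ZMod (2 ^ 3), (a - 1 = 0 ∨ a + 1 = 0) ↔ (a = 1 ∨ a = 7) := by decide
  exact h _

lemma sq_m8 (z : ℤ_[2]ˣ) : m8 ((z ^ 2 : ℤ_[2]ˣ) : ℤ_[2]) = 1 := by
  have h : ∀ a : ZMod (2 ^ 3), (a = 1 ∨ a = 3 ∨ a = 5 ∨ a = 7) → a ^ 2 = 1 := by decide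
  rw [Units.val_pow_eq_pow_val, map_pow]
  exact h _ (m8_unit z)

/-- the unit modulo eight -/
noncomputable def u8 : ℤ_[2]ˣ →* (ZMod (2 ^ 3))ˣ := Units.map m8.toMonoidHom

lemma u8_val (z : ℤ_[2]ˣ) : ((u8 z : (ZMod (2 ^ 3))ˣ) : ZMod (2 ^ 3)) = m8 (z : ℤ_[2]) := rfl

lemma u8_sq (z : ℤ_[2]ˣ) : u8 z ^ 2 = 1 := by
  apply Units.ext
  rw [← map_pow, u8_val, sq_m8]
  rfl

lemma u8_even {z z' : ℤ_[2]ˣ} {j : ℤ} (hj : Even j) : u8 (z ^ j * z' ^ (1 - j)) = u8 z' := by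
  obtain ⟨k, hk⟩ := hj
  have hk' : j = 2 * k := by omega
  rw [map_mul, map_zpow, map_zpow, hk', zpow_even (u8_sq _), one_mul, zpow_sub,
    zpow_even (u8_sq _), zpow_one]
  simp

lemma u8_odd {z z' : ℤ_[2]ˣ} {j : ℤ} (hj : Odd j) : u8 (z ^ j * z' ^ (1 - j)) = u8 z := by
  obtain ⟨k, hk⟩ := hj
  have e : 1 - j = 2 * (-k) := by omega
  rw [map_mul, map_zpow, map_zpow, e, zpow_even (u8_sq _), mul_one, hk, zpow_add,
    zpow_even (u8_sq _), zpow_one, one_mul]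

/-! ### Square roots -/

/-- a square root of a unit that is one modulo four is fixed by the inertia group -/
lemma fix_four {y : PadicAlgCl 2} (hy : ‖y ^ 2 - 1‖ ≤ 1 / 4) {τ : Au 2} (hin : Inert τ)
    (hτ : τ (y ^ 2) = y ^ 2) : τ y = y := by
  have h2 : ‖(2 : PadicAlgCl 2)‖ = 1 / 2 := by
    have := Pool.Agent.Y715.Gi.norm_two'
    rw [this]
    try norm_num
  have h20 : (2 : PadicAlgCl 2) ≠ 0 := by
    intro h0
    rw [h0, norm_zero] at h2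
    norm_num at h2
  rw [map_pow] at hτ
  rcases sq_eq_sq_iff_eq_or_eq_neg.1 hτ with h | h
  · exact h
  · exfalso
    obtain ⟨v, hv⟩ : ∃ v, v = (y - 1) / 2 := ⟨_, rfl⟩
    have hyv : y = 2 * v + 1 := by
      rw [hv]
      field_simp
      ring
    have hv1 : ‖v‖ ≤ 1 := by
      have e : y ^ 2 - 1 = 2 ^ 2 * (v * (v + 1)) := by
        rw [hyv]
        ring
      rw [e, norm_mul, norm_pow, h2, norm_mul] at hy
      by_contra hcon
      push Not at hcon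
      have h3 : ‖v + 1‖ = ‖v‖ := by
        apply eq_of_lt
        rwa [norm_one]
      rw [h3] at hy
      nlinarith
    have h4 := hin v hv1
    have e : τ v - v = -(2 * v + 1) := by
      rw [hv, map_div₀, map_sub, map_one, map_ofNat, h]
      field_simp
      ring
    have h5 : ‖2 * v + 1‖ = 1 := by
      rw [add_comm, eq_of_lt, norm_one]
      rw [norm_one, norm_mul, h2]
      nlinarith [norm_nonneg v]
    rw [e, norm_neg, h5] at h4
    exact lt_irrefl _ h4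

/-- a unit of `ℚ_2` whose square root is fixed by the inertia group is one modulo four -/
lemma four_of_fix {w : PadicAlgCl 2} (hw : w ^ 2 = w - 2) {y : PadicAlgCl 2} (hy : ‖y‖ = 1)
    (hall : ∀ τ : Au 2, τ (y ^ 2) = y ^ 2)
    (h : ∀ τ : Au 2, Inert τ → τ w = w → τ y = y) : ‖y ^ 2 - 1‖ ≤ 1 / 4 := by
  have h2 : ‖(2 : PadicAlgCl 2)‖ = 1 / 2 := by
    have := Pool.Agent.Y715.Gi.norm_two'
    rw [this]
    try norm_num
  obtain ⟨x, hx⟩ := fix_mem hall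
  have hxn : ‖x‖ = 1 := by
    rw [← PadicAlgCl.norm_extends 2 x]
    have e : ‖(algebraMap ℚ_[2] (PadicAlgCl 2)) x‖ = 1 := by rw [hx, norm_pow, hy, one_pow]
    exact e
  have h1 : ‖x - 1‖ < 1 := (md_eq hxn.le).1 (by rw [hxn]; exact lt_irrefl _)
  have h3 := Pool.Agent.R384.norm_lt_one h1
  have hn : ‖y ^ 2 - 1‖ = ‖x - 1‖ := by
    rw [← PadicAlgCl.norm_extends 2 (x - 1)]
    have e : ((x - 1 : ℚ_[2]) : PadicAlgCl 2) = y ^ 2 - 1 := by
      show algebraMap ℚ_[2] (PadicAlgCl 2) _ = _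
      rw [map_sub, map_one, hx]
    rw [e]
  rw [hn]
  by_contra hcon
  have h4 : ‖x - 1‖ = 1 / 2 := by
    refine le_antisymm h3 ?_
    by_contra h5
    push Not at h5
    exact hcon (norm_lt_half h5)
  rw [← hn] at h4
  have e : y ^ 2 - 1 = (y - 1) * ((y - 1) + 2) := by ring
  rw [e, norm_mul] at h4
  have h5 : 1 / 2 < ‖y - 1‖ := by
    by_contra h6
    push Not at h6
    have h7 : ‖(y - 1) + 2‖ ≤ 1 / 2 := Pool.Agent.Y715.Red.add_le h6 h2.le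
    nlinarith [norm_nonneg (y - 1), norm_nonneg ((y - 1) + 2)]
  have h6 : ‖(y - 1) + 2‖ = ‖y - 1‖ := by
    apply eq_of_lt
    rw [h2]
    exact h5
  rw [h6] at h4
  have hne : y - 1 ≠ 0 := by
    intro h0
    rw [h0, norm_zero] at h5
    norm_num at h5
  obtain ⟨m, hm⟩ := norm_odd hw (by norm_num) hne (fun τ hin hτ => by
    rw [map_sub, map_one, h τ hin hτ])
  rw [hm] at h4
  have h7 : ((2 : ℕ) : ℝ) ^ (m + m) = ((2 : ℕ) : ℝ) ^ (-1 : ℤ) := by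
    rw [zpow_add₀ (by norm_num), h4]
    norm_num
  have h8 := zpow_right_injective₀ (a := ((2 : ℕ) : ℝ)) (by norm_num) (by norm_num) h7
  omega

end Pool.Agent.T2h62.BK
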